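import Pool.Agent.X207.PSLac

/-!
# MP_1dc069_an : maximal lineability of the Pringsheim singular functions over the reals

For every nondegenerate interval `I`, the real vector space of smooth functions on `I` contains a
linear subspace of dimension continuum all of whose nonzero elements have Taylor series with
radius of convergence zero at every point of `I`.
-/

open Filter Topology

namespace Pool.Agent.Results.MP_1dc069_an.MaximalLineable

noncomputable section

/-- The extension of a function on `I` to the real line by zero. -/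
def ext {I : Set ℝ} (f : I → ℝ) : ℝ → ℝ := Function.extend Subtype.val f 0

/-- The real vector space of infinitely differentiable functions `I → ℝ` (one-sided derivatives at
endpoints belonging to `I`). -/
def CInf (I : Set ℝ) : Submodule ℝ (I → ℝ) where
  carrier := {f | ContDiffOn ℝ (⊤ : ℕ∞) (ext f) I}
  add_mem' {f g} hf hg := by
    refine ContDiffOn.congr (ContDiffOn.add hf hg) ?_
    intro x hx
    simp only [ext]
    have e : ∀ φ : I → ℝ, Function.extend Subtype.val φ (0 : ℝ → ℝ) x = φ ⟨x, hx⟩ := fun φ =>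
      Subtype.val_injective.extend_apply φ 0 ⟨x, hx⟩
    simp only [e, Pi.add_apply]
  zero_mem' := by
    refine ContDiffOn.congr (contDiffOn_const (c := (0 : ℝ))) ?_
    intro x hx
    exact Subtype.val_injective.extend_apply (0 : I → ℝ) 0 ⟨x, hx⟩
  smul_mem' a f hf := by
    refine ContDiffOn.congr (ContDiffOn.const_smul a hf) ?_
    intro x hx
    have e : ∀ φ : I → ℝ, Function.extend Subtype.val φ (0 : ℝ → ℝ) x = φ ⟨x, hx⟩ := fun φ =>
      Subtype.val_injective.extend_apply φ 0 ⟨x, hx⟩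
    simp only [ext, e, Pi.smul_apply]

/-- The `n`-th derivative at a point of `I` (one-sided at endpoints). -/
def derivAt {I : Set ℝ} (n : ℕ) (f : CInf I) (x : I) : ℝ :=
  iteratedDerivWithin n (ext (f : I → ℝ)) I x

/-- The radius of convergence of the Taylor series `∑ f⁽ⁿ⁾(x) (t - x)ⁿ / n!`. -/
def rho {I : Set ℝ} (f : CInf I) (x : I) : ENNReal :=
  (FormalMultilinearSeries.ofScalars ℝ (fun n : ℕ => derivAt n f x / (n.factorial : ℝ))).radius

/-- The set of smooth functions whose Taylor series has radius of convergence zero at every point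
of `I`. -/
def PS (I : Set ℝ) : Set (CInf I) := {f | ∀ x : I, rho f x = 0}

open Pool.Agent.X207.PSLac

lemma ext_apply {I : Set ℝ} (f : I → ℝ) {x : ℝ} (hx : x ∈ I) : ext f x = f ⟨x, hx⟩ :=
  Subtype.val_injective.extend_apply f 0 ⟨x, hx⟩

variable {I : Set ℝ}

/-- Restriction of the lacunary series. -/
def res (I : Set ℝ) {α : ℕ → ℝ} {A : ℝ} (hA : ∀ m, |α m| ≤ A) : CInf I :=
  ⟨fun x => H α x, by
    change ContDiffOn ℝ (⊤ : ℕ∞) (ext _) I
    refine (contDiff_H hA).contDiffOn.congr fun x hx => ?_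
    rw [ext_apply _ hx]⟩

lemma derivAt_res (hu : UniqueDiffOn ℝ I) {α : ℕ → ℝ} {A : ℝ} (hA : ∀ m, |α m| ≤ A) (n : ℕ)
    (x : I) : derivAt n (res I hA) x = iteratedDeriv n (H α) x := by
  unfold derivAt
  have h1 : Set.EqOn (ext ((res I hA : CInf I) : I → ℝ)) (H α) I := fun y hy => by
    rw [ext_apply _ hy]; rfl
  rw [iteratedDerivWithin_congr h1 x.2,
    iteratedDerivWithin_eq_iteratedDeriv hu ((contDiff_H hA).contDiffAt.of_le
      (by exact_mod_cast le_top)) x.2]

lemma abs_pow_le (t : Set.Ioo (0 : ℝ) 1) (m : ℕ) : |(t : ℝ) ^ m| ≤ 1 := by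
  rw [abs_of_nonneg (pow_nonneg t.2.1.le m)]
  exact pow_le_one₀ t.2.1.le t.2.2.le

/-- The generators. -/
def gen (I : Set ℝ) (t : Set.Ioo (0 : ℝ) 1) : CInf I := res I (α := fun m => (t : ℝ) ^ m)
  (A := 1) (abs_pow_le t)

/-- The coefficient sequence of a finite combination. -/
def co (a : Set.Ioo (0 : ℝ) 1 →₀ ℝ) (n : ℕ) : ℝ := ∑ t ∈ a.support, a t * (t : ℝ) ^ n

lemma co_le (a : Set.Ioo (0 : ℝ) 1 →₀ ℝ) (n : ℕ) : |co a n| ≤ ∑ t ∈ a.support, |a t| := by
  unfold co
  refine (Finset.abs_sum_le_sum_abs _ _).trans (Finset.sum_le_sum fun t _ => ?_)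
  rw [abs_mul]
  exact mul_le_of_le_one_right (abs_nonneg _) (abs_pow_le t n)

lemma comb_eq (a : Set.Ioo (0 : ℝ) 1 →₀ ℝ) :
    (a.sum fun t r => r • gen I t) = res I (co_le a) := by
  apply Subtype.ext
  funext x
  have e1 : ((a.sum fun t r => r • gen I t : CInf I) : I → ℝ) x =
      ∑ t ∈ a.support, a t * H (fun m => (t : ℝ) ^ m) x := by
    rw [Finsupp.sum, Submodule.coe_sum, Finset.sum_apply]
    rfl
  rw [e1]
  change _ = H (co a) x
  unfold H co
  simp_rw [← tsum_mul_left]
  rw [← Summable.tsum_finsetSum]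
  · congr 1
    funext m
    unfold term
    rw [Finset.sum_mul, Finset.sum_mul]
    apply Finset.sum_congr rfl
    intro t _
    ring
  · intro t _
    have := (summable_iter (α := fun m => (t : ℝ) ^ m) (A := 1) (abs_pow_le t) 0 (x : ℝ))
    simpa using this.mul_left (a t)

/-- Every nontrivial combination has huge derivatives at every point. -/
lemma comb_huge (hu : UniqueDiffOn ℝ I) (a : Set.Ioo (0 : ℝ) 1 →₀ ℝ) (ha : a ≠ 0) :
    ∀ᶠ n in atTop, ∀ x : I, ∃ k, (k = 3 * n ∨ k = 3 * n + 1) ∧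
      G n ≤ |derivAt k (a.sum fun t r => r • gen I t) x| := by
  classical
  set a' : ℝ → ℝ := fun u => if h : u ∈ Set.Ioo (0 : ℝ) 1 then a ⟨u, h⟩ else 0 with ha'
  have ha'1 : ∀ t : Set.Ioo (0 : ℝ) 1, a' t = a t := fun t => by
    rw [ha']; simp only [t.2, dif_pos]
  obtain ⟨b, t, hb, ht, hev⟩ := geometric_lower
    (a.support.map (Function.Embedding.subtype _)) (by
      intro u hu'
      rw [Finset.mem_map] at hu'
      obtain ⟨v, -, rfl⟩ := hu'
      exact v.2) a' (by
      obtain ⟨v, hv⟩ := Finsupp.support_nonempty_iff.2 ha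
      refine ⟨v, Finset.mem_map.2 ⟨v, hv, rfl⟩, ?_⟩
      rw [ha'1]
      exact Finsupp.mem_support_iff.1 hv)
  have hev' : ∀ᶠ n in atTop, b * t ^ n ≤ |co a n| := by
    filter_upwards [hev] with n hn
    rw [Finset.sum_map] at hn
    convert hn using 2
    unfold co
    apply Finset.sum_congr rfl
    intro v _
    change a v * (v : ℝ) ^ n = a' (v : ℝ) * (v : ℝ) ^ n
    rw [ha'1]
  filter_upwards [huge (co_le a) hb ht hev'] with n hn x
  obtain ⟨k, hk, hle⟩ := hn (x : ℝ)
  refine ⟨k, hk, ?_⟩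
  rw [comb_eq, derivAt_res hu]
  exact hle

lemma G_ge {n k : ℕ} (hk : k = 3 * n ∨ k = 3 * n + 1) :
    (k.factorial : ℝ) * (n + 1 : ℝ) ^ k ≤ G n := by
  unfold G
  have h1 : k ≤ 3 * n + 1 := by omega
  have h2 : (k.factorial : ℝ) ≤ (3 * n + 1).factorial := by
    exact_mod_cast Nat.factorial_le h1
  have h3 : (n + 1 : ℝ) ^ k ≤ (n + 1 : ℝ) ^ (3 * n + 1) :=
    pow_le_pow_right₀ (by have : (0 : ℝ) ≤ n := n.cast_nonneg
                          linarith) h1
  exact mul_le_mul h2 h3 (by positivity) (by positivity)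

lemma comb_rho (hu : UniqueDiffOn ℝ I) (a : Set.Ioo (0 : ℝ) 1 →₀ ℝ) (ha : a ≠ 0) (x : I) :
    rho (a.sum fun t r => r • gen I t) x = 0 := by
  by_contra hpos
  have hpos' : 0 < rho (a.sum fun t r => r • gen I t) x := pos_iff_ne_zero.2 hpos
  obtain ⟨r, hr0, hr⟩ := ENNReal.lt_iff_exists_nnreal_btwn.1 hpos'
  unfold rho at hr
  obtain ⟨C, hC, hle⟩ := FormalMultilinearSeries.norm_mul_pow_le_of_lt_radius _ hr
  have hr0' : 0 < (r : ℝ) := by exact_mod_cast hr0
  obtain ⟨N, hN⟩ := exists_nat_gt (2 / (r : ℝ))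
  obtain ⟨M, hM⟩ := exists_nat_gt C
  have hev := comb_huge hu a ha
  obtain ⟨n, hn1, hn2⟩ := (hev.and (eventually_ge_atTop (max N (M + 1)))).exists
  obtain ⟨k, hk, hGk⟩ := hn1 x
  have hnN : N ≤ n := (le_max_left _ _).trans hn2
  have hnM : M + 1 ≤ n := (le_max_right _ _).trans hn2
  have h1 := hle k
  rw [FormalMultilinearSeries.ofScalars_norm, norm_div, Real.norm_eq_abs, Real.norm_natCast] at h1
  have hkf : (0 : ℝ) < k.factorial := by exact_mod_cast k.factorial_pos
  have h2 : (n + 1 : ℝ) ^ k ≤ |derivAt k (a.sum fun t r => r • gen I t) x| / k.factorial := by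
    rw [le_div_iff₀ hkf, mul_comm]
    exact (G_ge hk).trans hGk
  have h3 : ((n + 1 : ℝ) * r) ^ k ≤ C := by
    rw [mul_pow]
    exact (mul_le_mul_of_nonneg_right h2 (by positivity)).trans h1
  have h4 : (2 : ℝ) ≤ (n + 1 : ℝ) * r := by
    rw [div_lt_iff₀ hr0'] at hN
    have : (N : ℝ) ≤ n := by exact_mod_cast hnN
    nlinarith
  have h5 : (2 : ℝ) ^ k ≤ C := (pow_le_pow_left₀ (by norm_num) h4 k).trans h3
  have h6 : (M : ℝ) < 2 ^ k := by
    have : M < 2 ^ k := lt_of_le_of_lt (by omega : M ≤ k) Nat.lt_two_pow_self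
    exact_mod_cast this
  linarith

lemma comb_ne (hu : UniqueDiffOn ℝ I) (hne : I.Nonempty) (a : Set.Ioo (0 : ℝ) 1 →₀ ℝ)
    (ha : a ≠ 0) : (a.sum fun t r => r • gen I t) ≠ (0 : CInf I) := by
  intro h0
  obtain ⟨x, hx⟩ := hne
  obtain ⟨n, hn⟩ := (comb_huge hu a ha).exists
  obtain ⟨k, hk, hle⟩ := hn ⟨x, hx⟩
  rw [h0] at hle
  have h1 : derivAt k (0 : CInf I) ⟨x, hx⟩ = 0 := by
    unfold derivAt
    have h2 : Set.EqOn (ext ((0 : CInf I) : I → ℝ)) (fun _ => (0 : ℝ)) I := fun y hy => by
      rw [ext_apply _ hy]; rfl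
    rw [iteratedDerivWithin_congr h2 hx]
    simp
  rw [h1, abs_zero] at hle
  have h3 := G_ge hk
  have : (0 : ℝ) < (k.factorial : ℝ) * (n + 1 : ℝ) ^ k := by positivity
  linarith

lemma linearIndependent_gen (hu : UniqueDiffOn ℝ I) (hne : I.Nonempty) :
    LinearIndependent ℝ (gen I) := by
  rw [linearIndependent_iff]
  intro a ha
  by_contra h0
  rw [Finsupp.linearCombination_apply] at ha
  exact comb_ne hu hne a h0 ha

lemma rank_le (I : Set ℝ) : Module.rank ℝ (CInf I) ≤ Cardinal.continuum := by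
  refine (rank_le_card ℝ (CInf I)).trans ?_
  obtain ⟨D, hD, hDd⟩ := TopologicalSpace.exists_countable_dense I
  have hcont : ∀ f : CInf I, Continuous (f : I → ℝ) := by
    intro f
    have h1 : ContinuousOn (ext (f : I → ℝ)) I := ContDiffOn.continuousOn f.2
    have h2 := continuousOn_iff_continuous_domRestrict.1 h1
    convert h2 using 1
    funext x
    exact (ext_apply (f : I → ℝ) x.2).symm
  have hinj : Function.Injective (fun (f : CInf I) (d : D) => (f : I → ℝ) d) := by
    intro f g hfg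
    apply Subtype.ext
    apply Continuous.ext_on hDd (hcont f) (hcont g)
    intro d hd
    exact congrFun hfg ⟨d, hd⟩
  refine (Cardinal.mk_le_of_injective hinj).trans ?_
  rw [Cardinal.mk_pi, Cardinal.prod_const, Cardinal.lift_id, Cardinal.lift_id, Cardinal.mk_real]
  have hD' : Cardinal.mk D ≤ Cardinal.aleph0 := Cardinal.mk_le_aleph0_iff.2 hD.to_subtype
  calc Cardinal.continuum ^ Cardinal.mk D ≤ Cardinal.continuum ^ Cardinal.aleph0 :=
        Cardinal.power_le_power_left Cardinal.continuum_ne_zero hD'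
    _ = Cardinal.continuum := Cardinal.continuum_power_aleph0

/-- **Main theorem.** Let `I` be a nondegenerate interval of the real line. There is a real linear
subspace `M` of the space of smooth functions on `I`, of dimension the continuum, which is also the
dimension of the whole space, such that every nonzero `f` in `M` has Taylor series with radius of
convergence zero at every point of `I`. -/
theorem result (I : Set ℝ) (hI : I.OrdConnected) (hI' : I.Nontrivial) :
    ∃ M : Submodule ℝ (CInf I), Module.rank ℝ M = Cardinal.continuum ∧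
      Module.rank ℝ (CInf I) = Cardinal.continuum ∧ ∀ f ∈ M, f ≠ 0 → f ∈ PS I := by
  have hint : (interior I).Nonempty := by
    obtain ⟨a, ha, b, hb, hab⟩ := hI'.exists_lt
    have h1 : Set.Ioo a b ⊆ I := Set.Ioo_subset_Icc_self.trans (hI.out ha hb)
    obtain ⟨c, hc⟩ := exists_between hab
    exact ⟨c, interior_maximal h1 isOpen_Ioo hc⟩
  have hu : UniqueDiffOn ℝ I := uniqueDiffOn_convex hI.convex hint
  have hli := linearIndependent_gen hu hI'.nonempty
  have hrank : Module.rank ℝ (Submodule.span ℝ (Set.range (gen I))) = Cardinal.continuum := by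
    rw [rank_span hli, Cardinal.mk_range_eq _ hli.injective]
    exact Cardinal.mk_Ioo_real zero_lt_one
  refine ⟨Submodule.span ℝ (Set.range (gen I)), hrank, ?_, ?_⟩
  · apply le_antisymm (rank_le I)
    rw [← hrank]
    exact Submodule.rank_le _
  · intro f hf hf0 x
    rw [Finsupp.mem_span_range_iff_exists_finsupp] at hf
    obtain ⟨a, rfl⟩ := hf
    apply comb_rho hu a
    rintro rfl
    apply hf0
    simp

end

end Pool.Agent.Results.MP_1dc069_an.MaximalLineable
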